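import Mathlib

/-!
# Minimality of Alsedà-Misiurewicz systems with `y₀ ≥ 1 / 2`

Every Alsedà-Misiurewicz system `(f₀, f₁)` whose parameters satisfy `1 / 2 < x₀ < 1` and
`1 / 2 ≤ y₀ < x₀` is minimal: all orbits of points of `(0, 1)` are dense in `(0, 1)`.

Method. Suppose that an orbit `O` is not dense, and let `(u, v)` be a longest interval without points
of `O`; its length `l` is less than one. The preimages of `(u, v)` under `f₀` and `f₁` are again
intervals without points of `O`. If `v ≤ y₀` then the preimage under `f₀` is longer, if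
`u ≥ 1 - y₀` then the preimage under `f₁` is longer. Otherwise the sum of the lengths of the two
preimages is `2 l + (1 - l) (x₀ - y₀) (2 y₀ - 1) / (y₀ (1 - y₀))`, so one of them is longer if
`y₀ > 1 / 2`. If `y₀ = 1 / 2` then both preimages have the length `l`, all the longest gaps contain
the point `1 / 2`, so they coincide, and `(u, v)` is its own preimage, which forces `(u, v) = (0, 1)`.
-/

set_option autoImplicit false

open Set

namespace Pool.Agent.Results.MP_f06e6c_an.Minimality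

/-- The map `f₀`: its graph consists of the segments from `(0, 0)` to `(x₀, y₀)` and from `(x₀, y₀)`
to `(1, 1)`. -/
noncomputable def f₀ (x₀ y₀ x : ℝ) : ℝ :=
  if x ≤ x₀ then y₀ / x₀ * x else (1 - y₀) / (1 - x₀) * (x - 1) + 1

/-- The map `f₁ x = 1 - f₀ (1 - x)`. -/
noncomputable def f₁ (x₀ y₀ x : ℝ) : ℝ := 1 - f₀ x₀ y₀ (1 - x)

/-- The orbit of `x`: the set of all points `f_{i_n} ∘ ⋯ ∘ f_{i_1} x` with `n ≥ 0` and
`i_1, …, i_n ∈ {0, 1}` (the letters are the entries of the list `w`). -/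
def orbit (x₀ y₀ x : ℝ) : Set ℝ :=
  {z | ∃ w : List Bool, z = w.foldl (fun t b => if b then f₁ x₀ y₀ t else f₀ x₀ y₀ t) x}

theorem orbit_self (x₀ y₀ x : ℝ) : x ∈ orbit x₀ y₀ x := ⟨[], rfl⟩

theorem orbit_f₀ {x₀ y₀ x z : ℝ} (h : z ∈ orbit x₀ y₀ x) : f₀ x₀ y₀ z ∈ orbit x₀ y₀ x := by
  obtain ⟨w, rfl⟩ := h
  exact ⟨w ++ [false], by simp [List.foldl_append]⟩

theorem orbit_f₁ {x₀ y₀ x z : ℝ} (h : z ∈ orbit x₀ y₀ x) : f₁ x₀ y₀ z ∈ orbit x₀ y₀ x := by
  obtain ⟨w, rfl⟩ := h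
  exact ⟨w ++ [true], by simp [List.foldl_append]⟩

/-- The inverse of `f₀`. -/
noncomputable def g₀ (x₀ y₀ y : ℝ) : ℝ :=
  if y ≤ y₀ then x₀ / y₀ * y else (1 - x₀) / (1 - y₀) * (y - 1) + 1

/-- The inverse of `f₁`. -/
noncomputable def g₁ (x₀ y₀ y : ℝ) : ℝ := 1 - g₀ x₀ y₀ (1 - y)

section

variable {x₀ y₀ : ℝ}

theorem f₀_mem_of (hx0 : 0 < x₀) (hx1 : x₀ < 1) (hy : 0 < y₀) (hyx : y₀ < x₀) {u v z : ℝ}
    (h1 : g₀ x₀ y₀ u < z) (h2 : z < g₀ x₀ y₀ v) : u < f₀ x₀ y₀ z ∧ f₀ x₀ y₀ z < v := by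
  have hy1 : y₀ < 1 := by linarith
  have h1x : 0 < 1 - x₀ := by linarith
  have h1y : 0 < 1 - y₀ := by linarith
  have e1 : x₀ / y₀ * (y₀ / x₀) = 1 := by field_simp
  have e2 : (1 - x₀) / (1 - y₀) * ((1 - y₀) / (1 - x₀)) = 1 := by field_simp
  have p1 : 0 < y₀ / x₀ := by positivity
  have p2 : 0 < x₀ / y₀ := by positivity
  have p3 : 0 < (1 - y₀) / (1 - x₀) := by positivity
  have p4 : 0 < (1 - x₀) / (1 - y₀) := by positivity
  have e3 : y₀ / x₀ * x₀ = y₀ := by field_simp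
  have e4 : x₀ / y₀ * y₀ = x₀ := by field_simp
  have e5 : (1 - y₀) / (1 - x₀) * (x₀ - 1) = y₀ - 1 := by field_simp; ring
  have e6 : (1 - x₀) / (1 - y₀) * (y₀ - 1) = x₀ - 1 := by field_simp; ring
  obtain ⟨α, hα⟩ : ∃ α, α = y₀ / x₀ := ⟨_, rfl⟩
  obtain ⟨α', hα'⟩ : ∃ α, α = x₀ / y₀ := ⟨_, rfl⟩
  obtain ⟨β, hβ⟩ : ∃ β, β = (1 - y₀) / (1 - x₀) := ⟨_, rfl⟩
  obtain ⟨β', hβ'⟩ : ∃ β, β = (1 - x₀) / (1 - y₀) := ⟨_, rfl⟩
  unfold f₀
  unfold g₀ at h1 h2
  rw [← hα, ← hα'] at e1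
  rw [← hβ, ← hβ'] at e2
  rw [← hα] at p1 e3 ⊢
  rw [← hα'] at p2 e4 h1 h2
  rw [← hβ] at p3 e5 ⊢
  rw [← hβ'] at p4 e6 h1 h2
  constructor
  · split_ifs with hz
    · split_ifs at h1 with hu
      · have : α * (α' * u) < α * z := by gcongr
        have e : α * (α' * u) = u := by rw [← mul_assoc, mul_comm α α', e1, one_mul]
        linarith
      · exfalso
        push Not at hu
        have : β' * (y₀ - 1) < β' * (u - 1) := by gcongr
        linarith
    · push Not at hz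
      split_ifs at h1 with hu
      · have : β * (x₀ - 1) < β * (z - 1) := by gcongr
        linarith
      · have h3 : β' * (u - 1) < z - 1 := by linarith
        have : β * (β' * (u - 1)) < β * (z - 1) := by gcongr
        have e : β * (β' * (u - 1)) = u - 1 := by rw [← mul_assoc, mul_comm β β', e2, one_mul]
        linarith
  · split_ifs with hz
    · split_ifs at h2 with hv
      · have : α * z < α * (α' * v) := by gcongr
        have e : α * (α' * v) = v := by rw [← mul_assoc, mul_comm α α', e1, one_mul]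
        linarith
      · push Not at hv
        have : α * z ≤ α * x₀ := by gcongr
        linarith
    · push Not at hz
      split_ifs at h2 with hv
      · exfalso
        have : α' * v ≤ α' * y₀ := by gcongr
        linarith
      · have h3 : z - 1 < β' * (v - 1) := by linarith
        have : β * (z - 1) < β * (β' * (v - 1)) := by gcongr
        have e : β * (β' * (v - 1)) = v - 1 := by rw [← mul_assoc, mul_comm β β', e2, one_mul]
        linarith

theorem g₀_mem (hx0 : 0 < x₀) (hx1 : x₀ < 1) (hy : 0 < y₀) (hyx : y₀ < x₀) {y : ℝ}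
    (h : y ∈ Icc (0 : ℝ) 1) : g₀ x₀ y₀ y ∈ Icc (0 : ℝ) 1 := by
  have hy1 : y₀ < 1 := by linarith
  have h1x : 0 < 1 - x₀ := by linarith
  have h1y : 0 < 1 - y₀ := by linarith
  obtain ⟨h0, h1⟩ := h
  unfold g₀
  split_ifs with hu
  · refine ⟨by positivity, ?_⟩
    have : x₀ / y₀ * y ≤ x₀ / y₀ * y₀ := by gcongr
    have e : x₀ / y₀ * y₀ = x₀ := by field_simp
    linarith
  · push Not at hu
    have p : 0 < (1 - x₀) / (1 - y₀) := by positivity
    have e6 : (1 - x₀) / (1 - y₀) * (y₀ - 1) = x₀ - 1 := by field_simp; ring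
    have : (1 - x₀) / (1 - y₀) * (y₀ - 1) ≤ (1 - x₀) / (1 - y₀) * (y - 1) := by gcongr
    constructor
    · linarith
    · nlinarith

end

/-- **Minimality.** Let `1 / 2 < x₀ < 1` and `1 / 2 ≤ y₀ < x₀`. The orbit of every point `x` of
`(0, 1)` under the Alsedà-Misiurewicz system with the parameters `(x₀, y₀)` is dense in `(0, 1)`. -/
theorem result (x₀ y₀ : ℝ) (hx0 : 1 / 2 < x₀) (hx1 : x₀ < 1) (hy0 : 1 / 2 ≤ y₀) (hyx : y₀ < x₀)
    (x : ℝ) (hx : x ∈ Ioo (0 : ℝ) 1) : Ioo (0 : ℝ) 1 ⊆ closure (orbit x₀ y₀ x) := by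
  have hx00 : 0 < x₀ := by linarith
  have hy00 : 0 < y₀ := by linarith
  have hy1 : y₀ < 1 := by linarith
  have h1x : 0 < 1 - x₀ := by linarith
  have h1y : 0 < 1 - y₀ := by linarith
  set O := orbit x₀ y₀ x with hO
  by_contra hcon
  obtain ⟨p, hp, hpO⟩ := not_subset.1 hcon
  -- a gap near `p`
  obtain ⟨a, b, hab, ha, hb, hgap⟩ : ∃ a b : ℝ, a < b ∧ 0 ≤ a ∧ b ≤ 1 ∧ ∀ z ∈ Ioo a b, z ∉ O := by
    rw [mem_closure_iff_nhds_basis (nhds_basis_Ioo p)] at hpO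
    push Not at hpO
    obtain ⟨⟨a, b⟩, ⟨h1, h2⟩, h3⟩ := hpO
    simp only at h1 h2
    refine ⟨max a 0, min b 1, ?_, le_max_right _ _, min_le_right _ _, ?_⟩
    · exact (max_lt h1 hp.1).trans (lt_min h2 hp.2)
    · intro z hz hzO
      exact h3 z hzO ⟨(le_max_left _ _).trans_lt hz.1, hz.2.trans_le (min_le_left _ _)⟩
  -- the longest gap
  set P : Set (ℝ × ℝ) := {q | q ∈ Icc (0 : ℝ) 1 ×ˢ Icc (0 : ℝ) 1 ∧ ∀ z ∈ O, ¬ (q.1 < z ∧ z < q.2)}
    with hP
  have hPc : IsCompact P := by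
    have h1 : IsClosed {q : ℝ × ℝ | ∀ z ∈ O, ¬ (q.1 < z ∧ z < q.2)} := by
      have : {q : ℝ × ℝ | ∀ z ∈ O, ¬ (q.1 < z ∧ z < q.2)} =
          ⋂ z ∈ O, {q : ℝ × ℝ | ¬ (q.1 < z ∧ z < q.2)} := by ext q; simp
      rw [this]
      refine isClosed_biInter fun z _ => ?_
      rw [← isOpen_compl_iff]
      have : {q : ℝ × ℝ | ¬ (q.1 < z ∧ z < q.2)}ᶜ = {q : ℝ × ℝ | q.1 < z} ∩ {q | z < q.2} := by
        ext q
        simp only [mem_compl_iff, Set.mem_ofPred_eq, not_not, mem_inter_iff]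
      rw [this]
      exact (isOpen_lt continuous_fst continuous_const).inter
        (isOpen_lt continuous_const continuous_snd)
    exact (isCompact_Icc.prod isCompact_Icc).inter_right h1
  have hPne : P.Nonempty := ⟨(a, b), ⟨⟨ha, by linarith⟩, ⟨by linarith, hb⟩⟩,
    fun z hz h => hgap z ⟨h.1, h.2⟩ hz⟩
  obtain ⟨⟨u, v⟩, huv, hmax⟩ := hPc.exists_isMaxOn hPne
    (f := fun q : ℝ × ℝ => q.2 - q.1) (continuous_snd.sub continuous_fst).continuousOn
  have hmax' : ∀ u' v' : ℝ, (u', v') ∈ P → v' - u' ≤ v - u := fun u' v' h => hmax h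
  obtain ⟨l, hl⟩ : ∃ l, l = v - u := ⟨_, rfl⟩
  have hl0 : 0 < l := by
    have := hmax' a b ⟨⟨⟨ha, by linarith⟩, ⟨by linarith, hb⟩⟩, fun z hz h => hgap z ⟨h.1, h.2⟩ hz⟩
    linarith
  obtain ⟨⟨⟨hu0, hu1⟩, ⟨hv0, hv1⟩⟩, hgapuv⟩ := huv
  simp only at hu0 hu1 hv0 hv1 hgapuv
  have hlt1 : l < 1 := by
    by_contra h
    push Not at h
    have hu : u = 0 := by linarith
    have hv : v = 1 := by linarith
    exact hgapuv x (orbit_self _ _ _) (by rw [hu, hv]; exact hx)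
  -- preimages of gaps
  have pre0 : ∀ u v : ℝ, (u, v) ∈ P → (g₀ x₀ y₀ u, g₀ x₀ y₀ v) ∈ P := by
    rintro u v ⟨⟨hu, hv⟩, h⟩
    refine ⟨⟨g₀_mem hx00 hx1 hy00 hyx hu, g₀_mem hx00 hx1 hy00 hyx hv⟩, fun z hz h' => ?_⟩
    exact h _ (orbit_f₀ hz) (f₀_mem_of hx00 hx1 hy00 hyx h'.1 h'.2)
  have pre1 : ∀ u v : ℝ, (u, v) ∈ P → (g₁ x₀ y₀ u, g₁ x₀ y₀ v) ∈ P := by
    rintro u v ⟨⟨hu, hv⟩, h⟩
    simp only at hu hv h
    have hu' := g₀_mem hx00 hx1 hy00 hyx (y := 1 - u) ⟨by linarith [hu.2], by linarith [hu.1]⟩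
    have hv' := g₀_mem hx00 hx1 hy00 hyx (y := 1 - v) ⟨by linarith [hv.2], by linarith [hv.1]⟩
    refine ⟨⟨⟨?_, ?_⟩, ⟨?_, ?_⟩⟩, fun z hz h' => ?_⟩
    · simp only [g₁]; linarith [hu'.2]
    · simp only [g₁]; linarith [hu'.1]
    · simp only [g₁]; linarith [hv'.2]
    · simp only [g₁]; linarith [hv'.1]
    · simp only [g₁] at h'
      have h3 := f₀_mem_of hx00 hx1 hy00 hyx (u := 1 - v) (v := 1 - u) (z := 1 - z)
        (by linarith [h'.2]) (by linarith [h'.1])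
      refine h _ (orbit_f₁ hz) ?_
      unfold f₁
      exact ⟨by linarith [h3.2], by linarith [h3.1]⟩
  have q0 : 1 < x₀ / y₀ := by rw [lt_div_iff₀ hy00]; linarith
  have hy01 : 1 - y₀ ≤ y₀ := by linarith
  -- every longest gap contains `[1 - y₀, y₀]` in its interior or at least meets it
  have key : ∀ u v : ℝ, (u, v) ∈ P → v - u = l → y₀ < v ∧ u < 1 - y₀ := by
    intro u v h hlen
    constructor
    · by_contra hv
      push Not at hv
      have h1 := hmax' _ _ (pre0 u v h)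
      have hu : u ≤ y₀ := by linarith
      simp only [g₀, if_pos hv, if_pos hu] at h1
      nlinarith
    · by_contra hu
      push Not at hu
      have h1 := hmax' _ _ (pre1 u v h)
      have hu' : 1 - u ≤ y₀ := by linarith
      have hv' : 1 - v ≤ y₀ := by linarith
      simp only [g₁, g₀, if_pos hv', if_pos hu'] at h1
      nlinarith
  obtain ⟨hv, hu⟩ := key u v ⟨⟨⟨hu0, hu1⟩, ⟨hv0, hv1⟩⟩, hgapuv⟩ hl.symm
  have huvP : (u, v) ∈ P := ⟨⟨⟨hu0, hu1⟩, ⟨hv0, hv1⟩⟩, hgapuv⟩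
  have hA := hmax' _ _ (pre0 u v huvP)
  have hB := hmax' _ _ (pre1 u v huvP)
  have hu' : u ≤ y₀ := by linarith
  have hv1' : 1 - v ≤ y₀ := by linarith
  have hv2 : ¬ v ≤ y₀ := not_le.2 hv
  have hu2 : ¬ 1 - u ≤ y₀ := by push Not; linarith
  have eA : g₀ x₀ y₀ v - g₀ x₀ y₀ u = (1 - x₀) / (1 - y₀) * (v - 1) + 1 - x₀ / y₀ * u := by
    simp only [g₀, if_neg hv2, if_pos hu']
  have eB : g₁ x₀ y₀ v - g₁ x₀ y₀ u =
      1 - x₀ / y₀ * (1 - v) - (1 - x₀) / (1 - y₀) * u := by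
    simp only [g₁, g₀, if_pos hv1', if_neg hu2]
    ring
  have hsum : (g₀ x₀ y₀ v - g₀ x₀ y₀ u) + (g₁ x₀ y₀ v - g₁ x₀ y₀ u) =
      2 * l + (1 - l) * ((x₀ - y₀) * (2 * y₀ - 1) / (y₀ * (1 - y₀))) := by
    rw [eA, eB, hl]
    field_simp
    ring
  rcases hy0.lt_or_eq with hy | hy
  · have h1 : 0 < (x₀ - y₀) * (2 * y₀ - 1) / (y₀ * (1 - y₀)) := by
      have : 0 < x₀ - y₀ := by linarith
      have : 0 < 2 * y₀ - 1 := by linarith
      positivity
    have h2 : 0 < (1 - l) * ((x₀ - y₀) * (2 * y₀ - 1) / (y₀ * (1 - y₀))) :=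
      mul_pos (by linarith) h1
    linarith
  · have h1 : (x₀ - y₀) * (2 * y₀ - 1) / (y₀ * (1 - y₀)) = 0 := by
      rw [← hy]; norm_num
    rw [h1, mul_zero, add_zero] at hsum
    have hA' : g₀ x₀ y₀ v - g₀ x₀ y₀ u = l := by linarith
    obtain ⟨hv', hu''⟩ := key _ _ (pre0 u v huvP) hA'
    obtain ⟨u', hu'd⟩ : ∃ u', u' = g₀ x₀ y₀ u := ⟨_, rfl⟩
    obtain ⟨v', hv'd⟩ : ∃ v', v' = g₀ x₀ y₀ v := ⟨_, rfl⟩
    have hpre := pre0 u v huvP
    rw [← hv'd] at hv'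
    rw [← hu'd] at hu''
    rw [← hu'd, ← hv'd] at hpre hA'
    obtain ⟨⟨⟨hu'0, hu'1⟩, ⟨hv'0, hv'1⟩⟩, hgap'⟩ := hpre
    simp only at hu'0 hu'1 hv'0 hv'1 hgap'
    have hun : (min u u', max v v') ∈ P := by
      refine ⟨⟨⟨le_min hu0 hu'0, (min_le_left _ _).trans hu1⟩,
        ⟨hv0.trans (le_max_left _ _), max_le hv1 hv'1⟩⟩, fun z hz h => ?_⟩
      simp only at h
      obtain ⟨h2, h3⟩ := h
      rw [min_lt_iff] at h2
      rw [lt_max_iff] at h3
      have e1 := hgapuv z hz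
      have e2 := hgap' z hz
      rcases h2 with h2 | h2 <;> rcases h3 with h3 | h3
      · exact e1 ⟨h2, h3⟩
      · by_cases hz2 : z < v
        · exact e1 ⟨h2, hz2⟩
        · push Not at hz2
          exact e2 ⟨by linarith, h3⟩
      · by_cases hz2 : u < z
        · exact e1 ⟨hz2, h3⟩
        · push Not at hz2
          exact e2 ⟨h2, by linarith⟩
      · exact e2 ⟨h2, h3⟩
    have hlen := hmax' _ _ hun
    have m1 := min_le_left u u'
    have m2 := min_le_right u u'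
    have m3 := le_max_left v v'
    have m4 := le_max_right v v'
    have hueq : u' = u := by
      apply le_antisymm
      · linarith
      · linarith
    have hveq : v' = v := by
      apply le_antisymm
      · linarith
      · linarith
    have hu0' : u = 0 := by
      have h3 : g₀ x₀ y₀ u = u := by rw [← hu'd]; exact hueq
      simp only [g₀, if_pos hu'] at h3
      nlinarith
    have hv1'' : v = 1 := by
      have h3 : g₀ x₀ y₀ v = v := by rw [← hv'd]; exact hveq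
      simp only [g₀, if_neg hv2] at h3
      have h4 : (1 - x₀) / (1 - y₀) < 1 := by rw [div_lt_one h1y]; linarith
      nlinarith
    rw [hu0', hv1''] at hl
    linarith

end Pool.Agent.Results.MP_f06e6c_an.Minimality
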